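import Pool.Agent.MP_ed9623_an.R1.Spec

/-! Statements: reduction to equilibria. -/

open MeasureTheory Filter Topology Set
open scoped ContDiff

namespace Pool.Agent.MP_ed9623_an.E63

open H64 (pd curvature dcurvature)
open H77
open S64 (Pc)
open R1 (TJ)

/-- The residual of the stationary system, as a functional of the test field. -/
noncomputable def res (g u : Fin 2 → P → ℝ) (du : Fin 2 → Fin 2 → P → ℝ) (ζ : Fin 2 → P → ℝ) : ℝ :=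
  ip g ζ - di (fun _ => 0) du ζ + tl (fun _ => 0) u u ζ

/-- The divergence. -/
noncomputable def dv (φ : Fin 2 → P → ℝ) (x : P) : ℝ := ∑ i, pd (ee i) (φ i) x

/-- Linear on test fields. -/
def LinT (Ω : Set P) (Λ : (Fin 2 → P → ℝ) → ℝ) : Prop :=
  ∀ ζ ξ (c : ℝ), (∀ j, Test Ω (ζ j)) → (∀ j, Test Ω (ξ j)) →
    Λ (fun j p => ζ j p + c * ξ j p) = Λ ζ + c * Λ ξ

/-- The mass of a test function supported in `N` can be moved to `b`, with a bound. -/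
def Mv (Ω N : Set P) (Λ : (Fin 2 → P → ℝ) → ℝ) (b : P → ℝ) : Prop :=
  ∃ C : ℝ, 0 ≤ C ∧ ∀ f, Test (Ω ∩ N) f → ∃ φ : Fin 2 → P → ℝ, (∀ j, Test Ω (φ j)) ∧
    (∀ x, dv φ x = f x - (∫ y, f y) * b x) ∧ |Λ φ| ≤ C * nm f

/-! ### The pressure of an equilibrium -/

/-- The divergence equation in a chart. -/
def DivS : Prop := ∀ (γ : ℝ → ℝ) (σ r : ℝ), Gam γ → σ ≤ 0 → 0 < r →
  ∃ (b : P → ℝ) (C : ℝ), Test (Qp σ r) b ∧ ∫ p, b p = 1 ∧ 0 ≤ C ∧ ∀ f, Test (Qp σ r) f →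
    ∃ ζ : Fin 2 → P → ℝ, (∀ j, Test (Qp σ r) (ζ j)) ∧
      (∀ p, ∑ j, dd γ j (ζ j) p = f p - (∫ q, f q) * b p) ∧
      ∀ j, nm (ζ j) ≤ C * nm f ∧ nm (pd (ee 1) (ζ j)) ≤ C * nm f

/-- The residual in a chart does not need tangential derivatives of the test field. -/
def BndS : Prop := ∀ (Ω : Set P) (x τ : P) (γ : ℝ → ℝ) (σ r R : ℝ) (u g : Fin 2 → P → ℝ)
    (du : Fin 2 → Fin 2 → P → ℝ), Ch Ω x τ γ σ r → P2 (fun _ => 0) 1 Ω univ R u du g →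
  ∃ C : ℝ, 0 ≤ C ∧ ∀ ζ : Fin 2 → P → ℝ, (∀ j, Test (Q (r / 2)) (ζ j)) →
    |res g u du (bv x τ γ ζ)| ≤ C * ∑ j, (nm (ζ j) + nm (pd (ee 1) (ζ j)))

/-- The local bound, up to the boundary. -/
def LocS : Prop := ∀ (ρ : P → ℝ) (R : ℝ) (u g : Fin 2 → P → ℝ) (du : Fin 2 → Fin 2 → P → ℝ),
  ContDiff ℝ ∞ ρ → (∀ x, ρ x = 0 → fderiv ℝ ρ x ≠ 0) →
  P2 (fun _ => 0) 1 {x | ρ x < 0} univ R u du g → ∀ x ∈ closure {x | ρ x < 0},
    ∃ (N : Set P) (b : P → ℝ), IsOpen N ∧ x ∈ N ∧ Test {x | ρ x < 0} b ∧ ∫ p, b p = 1 ∧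
      Mv {x | ρ x < 0} N (res g u du) b

/-- From local bounds to a square integrable pressure. -/
def GlueS : Prop := ∀ (Ω : Set P) (Λ : (Fin 2 → P → ℝ) → ℝ), IsOpen Ω → Bornology.IsBounded Ω →
  IsConnected Ω → LinT Ω Λ → (∀ φ, Sole Ω φ → Λ φ = 0) →
  (∀ x ∈ closure Ω, ∃ (N : Set P) (b : P → ℝ), IsOpen N ∧ x ∈ N ∧ Test Ω b ∧ ∫ p, b p = 1 ∧
    Mv Ω N Λ b) →
  ∃ p, M2 p ∧ ∀ φ : Fin 2 → P → ℝ, (∀ j, Test Ω (φ j)) → Λ φ = ∫ x, p x * dv φ x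

/-- A stationary solution with a square integrable pressure is a constant trajectory. -/
def EqS : Prop := ∀ (Ω : Set P) (g : Fin 2 → L2 Ω) (p : P → ℝ), IsOpen Ω →
  Bornology.IsBounded Ω → M2 p → ∃ q : L2 Ω, ∀ v ∈ Vs Ω,
    (∀ φ : Fin 2 → P → ℝ, (∀ j, Test Ω (φ j)) →
      res (fun j => xt Ω (g j)) (vl v) (gj v) φ = ∫ x, p x * dv φ x) →
    ∃ u : Fin 2 → L2 Ω, Traj Ω g (fun _ => u) (fun _ => q) ∧ ∀ j, vl v j =ᵐ[volume] xt Ω (u j)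

/-! ### The pair is steady -/

/-- Unique continuation for the time derivative of a solution. -/
def GucS : Prop := ∀ (Ω N : Set P) (g : Fin 2 → P → ℝ) (R : ℝ) (U : ℝ → E6), IsOpen Ω →
  IsPreconnected Ω → (∀ j, M2 (g j)) → Sv Ω g R U → IsOpen N → N.Nonempty → N ⊆ Ω →
  (∀ t j, Van N (vl (deriv U t) j)) → ∀ t j, Van Ω (vl (deriv U t) j)

/-- The alternative at a convex boundary point, with the steady case as frequency zero. -/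
def PerS : Prop := ∀ (ρ : P → ℝ) (x : P) (g : Fin 2 → P → ℝ) (R : ℝ) (a w : ℝ → E6),
  ContDiff ℝ ∞ ρ → (∀ x, ρ x = 0 → fderiv ℝ ρ x ≠ 0) → Bornology.IsBounded {x | ρ x < 0} →
  IsPreconnected {x | ρ x < 0} → ρ x = 0 → 0 < curvature ρ x → dcurvature ρ x ≠ 0 →
  Pv {x | ρ x < 0} g R a w → TU a → (∃ t, t ≤ 0 ∧ w t = 0) ∨ ∃ n, 0 ≤ n ∧ Pc ρ x n a w

/-- Frequency zero: both fields are steady on an open set. -/
def NbS : Prop := ∀ (ρ : P → ℝ) (x : P) (g : Fin 2 → P → ℝ) (R : ℝ) (a w : ℝ → E6),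
  ContDiff ℝ ∞ ρ → ρ x = 0 → fderiv ℝ ρ x ≠ 0 → 0 < curvature ρ x →
  Pv {x | ρ x < 0} g R a w → Pc ρ x 0 a w →
  ∃ N : Set P, IsOpen N ∧ N.Nonempty ∧ N ⊆ {x | ρ x < 0} ∧
    ∀ t j, Van N (vl (deriv a t) j) ∧ Van N (vl (deriv w t) j)

/-- A convex boundary point with varying curvature, for a connected domain. -/
def GeoS : Prop := ∀ ρ : P → ℝ, ContDiff ℝ ∞ ρ → (∀ x, ρ x = 0 → fderiv ℝ ρ x ≠ 0) →
  Bornology.IsBounded {x | ρ x < 0} → IsConnected {x | ρ x < 0} → ¬ Circ ρ →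
  ∃ x, ρ x = 0 ∧ 0 < curvature ρ x ∧ dcurvature ρ x ≠ 0

/-- Two complete bounded solutions with the same pressure. -/
def KeyS : Prop := ∀ (ρ : P → ℝ) (g : Fin 2 → P → ℝ) (R : ℝ) (a w : ℝ → E6),
  ContDiff ℝ ∞ ρ → (∀ x, ρ x = 0 → fderiv ℝ ρ x ≠ 0) → Bornology.IsBounded {x | ρ x < 0} →
  IsConnected {x | ρ x < 0} → Pv {x | ρ x < 0} g R a w → TU a → TJ a →
  (∀ t, w t ∈ Ys {x | ρ x < 0}) →
  (∃ t, t ≤ 0 ∧ w t = 0) ∨ (∀ t, t < 0 → a t = 0) ∨ ∀ t, deriv a t = 0 ∧ deriv w t = 0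

/-- The main implication. -/
def FinS : Prop := ∀ (ρ : P → ℝ), ContDiff ℝ ∞ ρ → (∀ x, ρ x = 0 → fderiv ℝ ρ x ≠ 0) →
  Bornology.IsBounded {x | ρ x < 0} → IsConnected {x | ρ x < 0} →
  ∀ g : Fin 2 → L2 {x | ρ x < 0},
    (∀ u v p, Traj {x | ρ x < 0} g (fun _ => u) (fun _ => p) →
      Traj {x | ρ x < 0} g (fun _ => v) (fun _ => p) → u = v) →
  ∃ (N : ℕ) (Φ : Fin N → L2 {x | ρ x < 0} →L[ℝ] ℝ), ∀ u p v q, Traj {x | ρ x < 0} g u p →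
    Traj {x | ρ x < 0} g v q → (∀ i, Tendsto (fun t => Φ i (p t) - Φ i (q t)) atTop (𝓝 0)) →
    Tendsto (fun t => ‖u t - v t‖) atTop (𝓝 0)

def OfDiv : Prop := DivS
def OfBnd : Prop := BndS
def OfLoc : Prop := DivS → BndS → LocS
def OfGlue : Prop := GlueS
def OfEq : Prop := EqS
def OfPer : Prop := PerS
def OfNb : Prop := NbS
def OfGeo : Prop := GeoS
def OfKey : Prop := GucS → PerS → NbS → GeoS → KeyS
def OfFin : Prop := LocS → GlueS → EqS → KeyS → FinS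

end Pool.Agent.MP_ed9623_an.E63
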