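import Pool.Agent.MP_ed9623_an.E63.Spec
import Pool.Agent.MP_ed9623_an.H77.AllW

/-! The residual in a chart does not need tangential derivatives of the test field. -/

open MeasureTheory Filter Topology Set
open scoped ContDiff

namespace Pool.Agent.MP_ed9623_an.E63

open H64 (pd)
open H77

namespace Bnd

theorem int_le {f φ : P → ℝ} {B : ℝ} (hf : M2 f) (hφ : M2 φ) (h : nm f ≤ B) :
    |∫ x, f x * φ x| ≤ B * nm φ :=
  (abs_int_le hf hφ).trans (mul_le_mul_of_nonneg_right h (nm_nonneg _))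

/-- A locally bounded factor. -/
theorem mul_le {O : Set P} {a f φ : P → ℝ} {A B : ℝ} (hO : IsOpen O) (ha : M2 a) (hf : M2 f)
    (hA : 0 ≤ A) (hb : ∀ᵐ p, p ∈ O → |a p| ≤ A) (h : nm f ≤ B) (hφ : Test O φ) :
    Integrable (fun x => a x * f x * φ x) ∧ |∫ x, a x * f x * φ x| ≤ A * B * nm φ := by
  have hm : ∀ᵐ x, |O.indicator a x| ≤ A := by
    filter_upwards [hb] with p hp
    by_cases c : p ∈ O
    · rw [indicator_of_mem c]; exact hp c
    · rw [indicator_of_notMem c, abs_zero]; exact hA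
  have m1 : M2 fun x => O.indicator a x * f x := hf.bmul (ha.ind hO.measurableSet).meas hm
  have e : (fun x => a x * f x * φ x) = fun x => O.indicator a x * f x * φ x := funext fun p => by
    by_cases c : p ∈ O
    · rw [indicator_of_mem c]
    · rw [hφ.off c, mul_zero, mul_zero]
  rw [e]
  exact ⟨m1.int_mul hφ.m2, int_le m1 hφ.m2
    ((nm_bmul hf hA hm).trans (mul_le_mul_of_nonneg_left h hA))⟩

/-- The viscous term. -/
theorem di_le {O : Set P} {γ : ℝ → ℝ} {d : Fin 2 → P → ℝ} {φ : P → ℝ} {M B G : ℝ} (hγ : Gam γ)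
    (hd : ∀ i, M2 (d i) ∧ nm (d i) ≤ B) (hT : TY O (d 0) M) (G0 : 0 ≤ G)
    (hG : ∀ y, |deriv γ y| ≤ G) (hφ : Test O φ) :
    |∑ i, ∫ x, d i x * dd γ i φ x| ≤ M * nm φ + (G * B + B) * nm (pd (ee 1) φ) := by
  obtain ⟨g, g1, g2, g3⟩ := hT
  have m1 : M2 fun p : P => deriv γ p.1 * d 0 p := (hd 0).1.gmul hγ.deriv
  have a1 := int_le g1 hφ.m2 g2
  have a2 := int_le m1 (hφ.pd (ee 1)).m2 ((nm_bmul (m := fun p : P => deriv γ p.1) (hd 0).1 G0
    (Eventually.of_forall fun p => hG p.1)).trans (mul_le_mul_of_nonneg_left (hd 0).2 G0))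
  have a3 := int_le (hd 1).1 (hφ.pd (ee 1)).m2 (hd 1).2
  have e : ∫ x, d 0 x * dd γ 0 φ x
      = -(∫ x, g x * φ x) - ∫ x, deriv γ x.1 * d 0 x * pd (ee 1) φ x := by
    rw [← g3 φ hφ, ← integral_sub ((hd 0).1.int_mul (hφ.pd _).m2) (m1.int_mul (hφ.pd _).m2)]
    refine integral_congr_ae (Eventually.of_forall fun p => ?_)
    simp only [dd0]
    ring
  rw [Fin.sum_univ_two, e, dd1]
  rw [abs_le] at a1 a2 a3 ⊢
  constructor <;> linarith [a1.1, a1.2, a2.1, a2.2, a3.1, a3.2]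

end Bnd

open Bnd in
theorem rowBnd : OfBnd := by
  intro Ω x τ γ σ r R u g du hC h
  obtain ⟨M, M0, hM⟩ := wGp Ω x τ γ σ r R hC
  obtain ⟨⟨h1, -⟩, h2⟩ := hM u du g h
  obtain ⟨G, G0, hG⟩ := hC.gam.deriv.bd
  obtain ⟨s1, -⟩ := rowTh x τ γ hC.un hC.gam
  obtain ⟨-, -, -, -, -, t6⟩ := wTrans x τ γ hC.un hC.gam
  have hP := Gp.p2_chart rowTh wTrans hC h
  have R0 : 0 ≤ R := (nm_nonneg _).trans (h.mf 0).2
  have hU : ∀ i, ∀ᵐ p, p ∈ Q (r / 2) → |tv x τ γ u i p| ≤ 2 * M := fun i => by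
    filter_upwards [s1.quasiMeasurePreserving.ae (h1 0), s1.quasiMeasurePreserving.ae (h1 1)]
      with p a b hp
    have hq : Th x τ γ p ∈ Thi x τ γ ⁻¹' Q (r / 2) := by rwa [mem_preimage, Thi_Th hC.un]
    have c1 := mul_le_mul (abs_Rm hC.un i 0) (a hq) (abs_nonneg _) zero_le_one
    have c2 := mul_le_mul (abs_Rm hC.un i 1) (b hq) (abs_nonneg _) zero_le_one
    simp only [tv, Fin.sum_univ_two]
    refine (abs_add_le _ _).trans ?_
    rw [abs_mul, abs_mul]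
    linarith
  refine ⟨4 * R + M + 2 * (2 * M * (4 * R)) + (G * (4 * R) + 4 * R), by positivity,
    fun ζ hζ => ?_⟩
  obtain ⟨e1, e2, e3⟩ := t6 ζ fun j => (hζ j).top
  have key : ∀ j, |(∫ p, tv x τ γ g j p * ζ j p) - (∑ i, ∫ p, td x τ γ du j i p * dd γ i (ζ j) p)
      - ∫ p, (∑ i, tv x τ γ u i p * td x τ γ du j i p) * ζ j p|
      ≤ (4 * R + M + 2 * (2 * M * (4 * R)) + (G * (4 * R) + 4 * R))
        * (nm (ζ j) + nm (pd (ee 1) (ζ j))) := fun j => by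
    have a1 := int_le (hP.mf j).1 (hζ j).m2 (hP.mf j).2
    have a2 := di_le hC.gam (fun i => ⟨(hP.vf.h1 j).md i, (hP.nb j).2 i⟩) (h2 j 0) G0 hG (hζ j)
    have a3 := fun i => mul_le (isOpen_Q _) (hP.vf.h1 i).m ((hP.vf.h1 j).md i)
      (by positivity) (hU i) ((hP.nb j).2 i) (hζ j)
    have e : ∫ p, (∑ i, tv x τ γ u i p * td x τ γ du j i p) * ζ j p
        = (∫ p, tv x τ γ u 0 p * td x τ γ du j 0 p * ζ j p)
          + ∫ p, tv x τ γ u 1 p * td x τ γ du j 1 p * ζ j p := by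
      rw [← integral_add (a3 0).1 (a3 1).1]
      simp only [Fin.sum_univ_two, add_mul]
    have b0 := (a3 0).2
    have b1 := (a3 1).2
    have n1 : 0 ≤ (G * (4 * R) + 4 * R) * nm (ζ j) := mul_nonneg (by positivity) (nm_nonneg _)
    have n2 : 0 ≤ (4 * R + M + 2 * (2 * M * (4 * R))) * nm (pd (ee 1) (ζ j)) :=
      mul_nonneg (by positivity) (nm_nonneg _)
    rw [e]
    rw [abs_le] at a1 a2 b0 b1 ⊢
    constructor <;> nlinarith [a1.1, a1.2, a2.1, a2.2, b0.1, b0.2, b1.1, b1.2]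
  unfold res
  rw [← e1 g fun j => (h.mf j).1, ← e2 du fun j i => (h.vf.h1 j).md i,
    ← e3 u u (fun j => (h.vf.h1 j).m) fun j => (h.vf.h1 j).m,
    wPrd.2 γ _ _ ζ _ _ hC.gam hP.vf hP.vf.h1 fun j => (hζ j).top]
  have k0 := key 0
  have k1 := key 1
  unfold ip di
  simp only [Fin.sum_univ_two] at k0 k1 ⊢
  rw [mul_add]
  rw [abs_le] at k0 k1 ⊢
  constructor <;> linarith [k0.1, k0.2, k1.1, k1.2]

end Pool.Agent.MP_ed9623_an.E63
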