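import Pool.Agent.MP_ed9623_an.E63.Spec
import Pool.Agent.MP_ed9623_an.H23.Tr2
import Pool.Agent.MP_ed9623_an.H22.Tr1

/-! A stationary solution with a square integrable pressure is a constant trajectory. -/

open MeasureTheory Filter Topology Set
open scoped ContDiff

namespace Pool.Agent.MP_ed9623_an.E63

open H64 (pd)
open H77

namespace EqR

variable {Ω : Set P}

theorem xt_toLp (hΩ : MeasurableSet Ω) {f : P → ℝ} (hf : MemLp f 2 (volume.restrict Ω)) :
    xt Ω (hf.toLp f) =ᵐ[volume] Ω.indicator f := by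
  filter_upwards [(ae_restrict_iff' hΩ).1 hf.coeFn_toLp] with x a
  by_cases hx : x ∈ Ω
  · simp only [xt, indicator_of_mem hx, a hx]
  · simp only [xt, indicator_of_notMem hx]

theorem exists_rs (hΩ : MeasurableSet Ω) (f : L) (h : Van Ωᶜ f) :
    ∃ u : L2 Ω, f =ᵐ[volume] xt Ω u := by
  refine ⟨((Lp.memLp f).restrict Ω).toLp f, ?_⟩
  filter_upwards [xt_toLp hΩ ((Lp.memLp f).restrict Ω), h] with x a b
  rw [a]
  by_cases hx : x ∈ Ω
  · rw [indicator_of_mem hx]
  · rw [indicator_of_notMem hx, b hx]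

theorem inV (hΩ : MeasurableSet Ω) {u : Fin 2 → L2 Ω} {G : Fin 2 → Fin 2 → L2 Ω} {v : E6}
    (h1 : ∀ j, vl v j =ᵐ[volume] xt Ω (u j)) (h2 : ∀ j i, gj v j i =ᵐ[volume] xt Ω (G j i))
    (hv : v ∈ Vs Ω) : InV Ω u G := by
  intro ε hε
  obtain ⟨w, ⟨φ, hφ, hw⟩, hd⟩ := Metric.mem_closure_iff.1 hv _ (Real.sqrt_pos.2 hε)
  have k : ∀ ix, ‖v ix - w ix‖ ^ 2 < ε := fun ix => by
    have a : ‖v ix - w ix‖ < √ε := by
      rw [dist_eq_norm] at hd
      exact (PiLp.norm_apply_le (v - w) ix).trans_lt hd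
    exact (Real.lt_sqrt (norm_nonneg _)).1 a
  exact ⟨φ, hφ, fun j => ⟨Tr1.dist_sq hΩ (h1 j) (hw j).1 (hφ.1 j) ▸ k (j, none), fun i =>
    Tr1.dist_sq hΩ (h2 j i) ((hw j).2 i) ((hφ.1 j).pd _) ▸ k (j, some i)⟩⟩

end EqR

open EqR in
theorem rowEq : OfEq := by
  intro Ω g p hΩ hb hp
  have mΩ := hΩ.measurableSet
  have : IsFiniteMeasure (volume.restrict Ω : Measure P) :=
    isFiniteMeasure_restrict.2 hb.measure_lt_top.ne
  have hp' : MemLp p 2 (volume.restrict Ω) := hp.restrict Ω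
  have hq : MemLp (fun x => (⨍ y in Ω, p y) - p x) 2 (volume.restrict Ω) :=
    (memLp_const _).sub hp'
  refine ⟨hq.toLp _, fun v hv hr => ?_⟩
  have hz := (Vs_le Ω hv).1
  choose u hu using fun j => exists_rs mΩ (v (j, none)) (hz.2 _)
  choose G hG using fun j i => exists_rs mΩ (v (j, some i)) (hz.2 _)
  have hV : InV Ω u G := inV mΩ hu hG hv
  refine ⟨u, ⟨continuousOn_const, fun _ _ ε hε => ?_, ⟨fun _ => G, fun T => memLp_const _,
    Eventually.of_forall fun _ _ => hV⟩, fun _ _ => ?_, fun t _ φ hφ => ?_⟩, hu⟩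
  · obtain ⟨φ, a, b⟩ := hV ε hε
    exact ⟨φ, a, fun i => (b i).1⟩
  · rw [integral_congr_ae hq.coeFn_toLp]
    exact integral_average_sub (hp'.integrable one_le_two)
  have d3 : ∑ j, ∑ i, ∫ x, xt Ω (u j) x * pd (ee i) (pd (ee i) (φ j)) x
      = -di (fun _ => 0) (gj v) φ := by
    rw [di, ← Finset.sum_neg_distrib]
    refine Finset.sum_congr rfl fun j _ => ?_
    rw [← Finset.sum_neg_distrib]
    refine Finset.sum_congr rfl fun i _ => ?_
    have := (hz.1 j).w i _ ((hφ j).pd (ee i)).top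
    rw [dd_zero] at this ⊢
    exact (integral_congr_ae ((hu j).mul EventuallyEq.rfl)).symm.trans this
  have t0 := (hφ 0).pd (ee 0)
  have t1 := (hφ 1).pd (ee 1)
  have k := fun j i => H64.integral_pd_eq_zero volume (ee i) (contDiff_infty.1 (hφ j).1 1)
    (hφ j).2.1
  have i0 : Integrable (pd (ee 0) (φ 0)) := t0.ct.integrable_of_hasCompactSupport t0.2.1
  have i1 : Integrable (pd (ee 1) (φ 1)) := t1.ct.integrable_of_hasCompactSupport t1.2.1
  have d4 : ∫ x, xt Ω (hq.toLp _) x * (pd (ee 0) (φ 0) x + pd (ee 1) (φ 1) x)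
      = -∫ x, p x * dv φ x := by
    have e : ∫ x, (⨍ y in Ω, p y) * (pd (ee 0) (φ 0) x + pd (ee 1) (φ 1) x) = 0 := by
      rw [integral_const_mul, integral_add i0 i1, k, k, add_zero, mul_zero]
    have j0 : Integrable fun x => (⨍ y in Ω, p y) * (pd (ee 0) (φ 0) x + pd (ee 1) (φ 1) x) :=
      (i0.add i1).const_mul _
    rw [← zero_sub, ← e, ← integral_sub j0]
    · refine integral_congr_ae ?_
      filter_upwards [xt_toLp mΩ hq] with x a
      rw [a, dv, Fin.sum_univ_two]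
      by_cases hx : x ∈ Ω
      · rw [indicator_of_mem hx]; ring
      · simp only [t0.off hx, t1.off hx, add_zero, mul_zero, sub_zero]
    · simp only [dv, Fin.sum_univ_two]
      exact hp.int_mul (t0.add t1).m2
  have z : rhs Ω g u (hq.toLp _) φ = 0 := by
    have := hr φ hφ
    rw [res, tl_congr (u := vl v) (w := vl v) hu hu] at this
    rw [Tr2.rhs_eq mΩ g u _ hφ, d3, d4]
    linarith
  rw [z]
  exact hasDerivAt_const _ _

end Pool.Agent.MP_ed9623_an.E63
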