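import Pool.Agent.MP_ed9623_an.E63.Spec
import Pool.Agent.MP_ed9623_an.R1.Fin4

/-! From the alternative to determining functionals. -/

open MeasureTheory Filter Topology Set
open scoped ContDiff InnerProductSpace

namespace Pool.Agent.MP_ed9623_an.E63

open H64 H77

namespace XFin

variable {Ω : Set P} {g : Fin 2 → P → ℝ} {S : St X2 (VV Ω)} {D : Pd X2 (VV Ω) (YY Ω)}
  {U : ℝ → VV Ω}

theorem ob (hM : Mod Ω g S D) (d : deriv U 0 = 0) {φ : Fin 2 → P → ℝ} {ζ : YY Ω}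
    (hζ : Jet φ ζ.1) : res g (vl (U 0).1) (gj (U 0).1) φ = ⟪obs S D U 0, ζ⟫_ℝ := by
  rw [res, obs, d, map_zero, map_zero, sub_zero, inner_sub_left, inner_sub_left, hM.γY, hM.AY,
    hM.BY, hζ.ip, hζ.dj, hζ.tj, sub_neg_eq_add]

theorem lin (hM : Mod Ω g S D) (d : deriv U 0 = 0) :
    LinT Ω (res g (vl (U 0).1) (gj (U 0).1)) := fun φ ψ c hφ hψ => by
  obtain ⟨ζ, hζ⟩ := exists_jetY hφ
  obtain ⟨ξ, hξ⟩ := exists_jetY hψ
  rw [ob hM d hζ, ob hM d hξ, ob hM d (ζ := ζ + c • ξ) (hζ.add (hξ.smul (fun j => (hψ j).1) c)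
    (fun j => (hφ j).1) fun j => ((hψ j).cmul c).1), inner_add_right]
  exact congrArg _ (inner_smul_right (obs S D U 0) ξ c)

theorem sol (hM : Mod Ω g S D) (hU : Sm S univ U) (d : deriv U 0 = 0) (φ : Fin 2 → P → ℝ)
    (hφ : Sole Ω φ) : res g (vl (U 0).1) (gj (U 0).1) φ = 0 := by
  obtain ⟨ζ, hζ⟩ := exists_jetV hφ
  have e := congrArg (fun y => ⟪y, ζ⟫_ℝ) (hU.2 0 trivial)
  simp only [d, map_zero, inner_zero_left] at e
  rw [St.G, inner_sub_left, inner_sub_left, hM.γ, hM.A, hM.B, hζ.ip, hζ.dj, hζ.tj] at e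
  rw [res]
  linarith

theorem p2 {R : ℝ} (hg : ∀ j, M2 (g j)) (hM : Mod Ω g S D) (hU : Bd S R univ U)
    (d : deriv U 0 = 0) :
    P2 (fun _ => 0) 1 Ω univ (R + ∑ j, nm (g j)) (vl (U 0).1) (gj (U 0).1) g :=
  ((Cv.sv hg hM hU).2 0).congr (fun _ => EventuallyEq.rfl) (fun _ _ => EventuallyEq.rfl) fun j => by
    rw [(Cv.der hU 0).deriv, d]
    filter_upwards [co_zero (j, none)] with p a
    exact sub_eq_self.2 a

end XFin

theorem rowFin : OfFin := by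
  intro hL hG hQ K ρ hρ hreg hb hc g hI
  have o : IsOpen {x | ρ x < 0} := isOpen_lt hρ.continuous continuous_const
  have m := o.measurableSet
  have mg := fun j => m2_xt m (g j)
  obtain ⟨S, D, hM⟩ := rowModel wLad rowCpt _ _ hb mg
  obtain ⟨N, Λ, hΛ⟩ := aAf S D hM.anti hM.cpt fun R U W hU hW e => by
    obtain ⟨R', hP⟩ := rowCv _ _ S D R U W mg hM hU hW e
    have two : ∀ z : E6, (1 / 2 : ℝ) • z = 0 → z = 0 := fun z hz =>
      (smul_eq_zero.1 hz).resolve_left one_half_pos.ne'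
    rcases K ρ _ R' _ _ hρ hreg hb hc hP
      (tu_of (rowTan (rowEnN aPl rowEqN) rowMaj H77.rowTay) hM hU hW) (R1.tj_of hM hU hW) fun t =>
      Vs_le_Ys _ ((Vs _).smul_mem _ ((Vs _).sub_mem (U t).2 (W t).2)) with ⟨t, ht, a⟩ | a | a
    · exact ⟨t, ht, Subtype.ext (sub_eq_zero.1 (two _ a))⟩
    · exact ⟨-1, by norm_num, aDec hU hW fun t ht => Subtype.ext (two _ (a t ht))⟩
    have a1 := two _ ((((Cv.der hU 0).fun_add (Cv.der hW 0)).fun_const_smul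
      (1 / 2 : ℝ)).deriv.symm.trans (a 0).1)
    have a2 := sub_eq_zero.1 (two _ ((((Cv.der hU 0).fun_sub (Cv.der hW 0)).fun_const_smul
      (1 / 2 : ℝ)).deriv.symm.trans (a 0).2))
    have dW : deriv W 0 = 0 := Subtype.ext (by
      rw [a2, ← two_smul ℝ] at a1
      exact (smul_eq_zero.1 a1).resolve_left two_ne_zero)
    have dU : deriv U 0 = 0 := (Subtype.ext a2).trans dW
    obtain ⟨p, p1, p2⟩ := hG _ _ o hb hc (XFin.lin hM dU) (XFin.sol hM hU.1 dU)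
      (hL ρ _ _ _ _ hρ hreg (XFin.p2 mg hM hU dU))
    obtain ⟨q, hq⟩ := hQ _ g p o hb p1
    obtain ⟨u, u2, u1⟩ := hq _ (U 0).2 p2
    obtain ⟨v, v2, v1⟩ := hq _ (W 0).2 fun φ hφ => by
      obtain ⟨ζ, hζ⟩ := exists_jetY hφ
      rw [← p2 φ hφ, XFin.ob hM dU hζ, XFin.ob hM dW hζ, e]
    have uv := hI u v q u2 v2
    refine ⟨0, le_rfl, Subtype.ext (sub_eq_zero.1 (eq_zero_of_van
      (Vs_le _ ((Vs _).sub_mem (U 0).2 (W 0).2)).1 fun j => ?_))⟩
    filter_upwards [co_sub (U 0).1 (W 0).1 (j, none), u1 j, v1 j] with p b c d _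
    exact b.trans (sub_eq_zero.2 (c.trans (uv ▸ d.symm)))
  obtain ⟨E, hE⟩ := exists_ext m
  have rz : ∀ i, ∃ ζ : YY {x | ρ x < 0}, ∀ y, ⟪y, ζ⟫_ℝ = Λ y i := fun i =>
    ⟨(InnerProductSpace.toDual ℝ _).symm (ContinuousLinearMap.proj i ∘L Λ), fun y => by
      rw [real_inner_comm, InnerProductSpace.toDual_symm_apply]; rfl⟩
  choose ζ hζ using rz
  choose l hl using fun i => exists_int ((m2_gj (ζ i).1 0 0).add (m2_gj (ζ i).1 1 1))
  refine ⟨N, fun i => -(l i ∘L E.toContinuousLinearMap), fun u p v q hu hv hΦ => ?_⟩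
  have key : ∀ u p, Traj {x | ρ x < 0} g u p → ∃ U, Sm S (Ioi 0) U ∧ ∀ t, 0 < t →
      (∀ j, S.ι (U t) j = E (u t j)) ∧ ∀ i, Λ (obs S D U t) i = -l i (E (p t)) := fun u p h => by
    obtain ⟨z, Z, a, b⟩ := rowTr1 _ g S D u p o hM h
    obtain ⟨U, c, d⟩ := aSmooth (itv_Ioi 0) a
    have e : ∀ t, 0 < t → ∀ j, S.ι (U t) j =ᵐ[volume] xt _ (u t j) := fun t ht j => d t ht ▸ b t j
    refine ⟨U, c, fun t ht => ⟨fun j => Lp.ext ((e t ht j).trans (hE _).symm), fun i => ?_⟩⟩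
    rw [← hζ, rowTr2 _ g S D u p U o hM h c e t ht, hl]
    exact congrArg _ (integral_congr_ae ((hE _).symm.mul EventuallyEq.rfl))
  obtain ⟨U, hU, a⟩ := key u p hu
  obtain ⟨W, hW, b⟩ := key v q hv
  refine squeeze_zero' (Eventually.of_forall fun _ => norm_nonneg _) ?_
    (hΛ U W hU hW (tendsto_pi_nhds.2 fun i => (hΦ i).congr' ?_))
  · filter_upwards [eventually_gt_atTop 0] with t ht
    refine (pi_norm_le_iff_of_nonneg (norm_nonneg _)).2 fun j => ?_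
    rw [← E.norm_map, Pi.sub_apply, map_sub, ← (a t ht).1, ← (b t ht).1, map_sub, ← PiLp.sub_apply]
    exact PiLp.norm_apply_le _ j
  · filter_upwards [eventually_gt_atTop 0] with t ht
    rw [map_sub, Pi.sub_apply, (a t ht).2, (b t ht).2]
    rfl

end Pool.Agent.MP_ed9623_an.E63
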