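import Pool.Agent.MP_ed9623_an.E63.Spec
import Pool.Agent.MP_ed9623_an.H4.Riesz

/-! From local bounds to a square integrable pressure. -/

open MeasureTheory Filter Topology Set
open scoped ContDiff

namespace Pool.Agent.MP_ed9623_an.E63

open H64 (pd pd_add pd_const_mul)
open H77

namespace Glue

variable {Ω N : Set P} {Λ : (Fin 2 → P → ℝ) → ℝ} {b b' h h' : P → ℝ} {c c' : ℝ}

/-- A solution of the divergence equation, with a bound. -/
def Sol (Ω : Set P) (Λ : (Fin 2 → P → ℝ) → ℝ) (h : P → ℝ) (c : ℝ) : Prop :=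
  ∃ φ : Fin 2 → P → ℝ, (∀ j, Test Ω (φ j)) ∧ (∀ x, dv φ x = h x) ∧ |Λ φ| ≤ c

theorem dv_lin {φ ψ : Fin 2 → P → ℝ} (hφ : ∀ j, Test Ω (φ j)) (hψ : ∀ j, Test Ω (ψ j)) (a : ℝ)
    (x : P) : dv (fun j p => φ j p + a * ψ j p) x = dv φ x + a * dv ψ x := by
  simp only [dv, Fin.sum_univ_two]
  rw [pd_add _ (sm_diff (hφ 0).1 x) (sm_diff ((hψ 0).cmul a).1 x),
    pd_add _ (sm_diff (hφ 1).1 x) (sm_diff ((hψ 1).cmul a).1 x),
    pd_const_mul _ _ (sm_diff (hψ 0).1 x), pd_const_mul _ _ (sm_diff (hψ 1).1 x)]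
  ring

theorem Sol.lin (hL : LinT Ω Λ) (s : Sol Ω Λ h c) (s' : Sol Ω Λ h' c') (a : ℝ) {k : P → ℝ}
    {e : ℝ} (hk : ∀ x, k x = h x + a * h' x) (he : c + |a| * c' ≤ e) : Sol Ω Λ k e := by
  obtain ⟨φ, a1, a2, a3⟩ := s
  obtain ⟨ψ, b1, b2, b3⟩ := s'
  refine ⟨fun j p => φ j p + a * ψ j p, fun j => (a1 j).add ((b1 j).cmul a), fun x => ?_, ?_⟩
  · rw [dv_lin a1 b1, a2, b2, hk]
  · rw [hL _ _ _ a1 b1]
    refine (abs_add_le _ _).trans ?_
    rw [abs_mul]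
    exact (add_le_add a3 (mul_le_mul_of_nonneg_left b3 (abs_nonneg a))).trans he

theorem Sol.nn (s : Sol Ω Λ h c) : 0 ≤ c := let ⟨_, _, _, a⟩ := s; (abs_nonneg _).trans a

theorem int_le (hb : Bornology.IsBounded Ω) :
    ∃ K : ℝ, 0 ≤ K ∧ ∀ f, Test Ω f → |∫ x, f x| ≤ K * nm f := by
  obtain ⟨χ, a1, -, a3⟩ := exists_cut hb.isCompact_closure isOpen_univ (subset_univ _)
  refine ⟨nm χ, nm_nonneg _, fun f hf => ?_⟩
  have : ∀ x, f x = χ x * f x := fun x => by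
    by_cases hx : x ∈ Ω
    · rw [a3.self_of_nhdsSet x (subset_closure hx), one_mul]
    · rw [hf.off hx, mul_zero]
  exact (congrArg abs (integral_congr_ae (Eventually.of_forall this))).trans_le
    (abs_int_le a1.m2 hf.m2)

theorem exists_one (o : IsOpen N) {x : P} (hx : x ∈ N) : ∃ f, Test N f ∧ ∫ y, f y = 1 := by
  obtain ⟨r, r0, hr⟩ := Metric.nhds_basis_closedBall.mem_iff.1 (o.mem_nhds hx)
  let b : ContDiffBump x := ⟨r / 2, r, half_pos r0, half_lt_self r0⟩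
  exact ⟨b.normed volume, ⟨b.contDiff_normed, b.hasCompactSupport_normed,
    b.tsupport_normed_eq.trans_subset hr⟩, b.integral_normed⟩

theorem chg (hL : LinT Ω Λ) (hb : Bornology.IsBounded Ω) {N' : Set P} (o : IsOpen (Ω ∩ N ∩ N'))
    (hn : (Ω ∩ N ∩ N').Nonempty) (m : Mv Ω N Λ b) (m' : Mv Ω N' Λ b') : Mv Ω N Λ b' := by
  obtain ⟨K, k0, hK⟩ := int_le hb
  obtain ⟨x, hx⟩ := hn
  obtain ⟨f₀, f1, f2⟩ := exists_one o hx
  obtain ⟨C, c0, hC⟩ := m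
  obtain ⟨C', -, hC'⟩ := m'
  have s : Sol Ω Λ (fun x => b x - b' x) _ := Sol.lin hL
    (hC' f₀ (f1.mono fun y hy => ⟨hy.1.1, hy.2⟩)) (hC f₀ (f1.mono inter_subset_left)) (-1)
    (fun x => by rw [f2]; ring) le_rfl
  generalize C' * nm f₀ + |(-1 : ℝ)| * (C * nm f₀) = c at s
  have := s.nn
  refine ⟨C + K * c, by positivity, fun f hf => Sol.lin hL (hC f hf) s (∫ y, f y)
    (fun x => by ring) ?_⟩
  have := mul_le_mul_of_nonneg_right (hK f (hf.mono inter_subset_left)) s.nn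
  linarith

theorem same (o : IsOpen Ω) (hb : Bornology.IsBounded Ω) (hc : IsConnected Ω) (hL : LinT Ω Λ)
    (h : ∀ x ∈ closure Ω, ∃ (N : Set P) (b : P → ℝ), IsOpen N ∧ x ∈ N ∧ Mv Ω N Λ b) :
    ∃ b, ∀ x ∈ closure Ω, ∃ N, IsOpen N ∧ x ∈ N ∧ Mv Ω N Λ b := by
  obtain ⟨x₀, h0⟩ := hc.1
  obtain ⟨N₀, b, n1, n2, n3⟩ := h x₀ (subset_closure h0)
  set S : Set P := Ω ∩ {x | ∃ N, IsOpen N ∧ x ∈ N ∧ Mv Ω N Λ b} with hS
  have oS : IsOpen S := o.inter (isOpen_iff_forall_mem_open.2 fun x ⟨N, a1, a2, a3⟩ =>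
    ⟨N, fun y hy => ⟨N, a1, hy, a3⟩, a1, a2⟩)
  have key : ∀ x ∈ closure S, ∃ N, IsOpen N ∧ x ∈ N ∧ Mv Ω N Λ b := fun x hx => by
    obtain ⟨N, b', a1, a2, a3⟩ := h x (closure_mono inter_subset_left hx)
    obtain ⟨y, y1, y2, N', c1, c2, c3⟩ := mem_closure_iff.1 hx N a1 a2
    exact ⟨N, a1, a2, chg hL hb ((o.inter a1).inter c1) ⟨y, ⟨y2, y1⟩, c2⟩ a3 c3⟩
  have sub : Ω ⊆ S := hc.2.subset_of_closure_inter_subset oS ⟨x₀, h0, h0, N₀, n1, n2, n3⟩
    fun x hx => ⟨hx.2, key x hx.1⟩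
  exact ⟨b, fun x hx => key x (closure_mono sub hx)⟩

theorem nm_cut {χ f : P → ℝ} (hχ : ∀ x, 0 ≤ χ x ∧ χ x ≤ 1) (hf : M2 f) :
    nm (fun x => χ x * f x) ≤ nm f := nm_mono hf (Eventually.of_forall fun x => by
  rw [abs_mul, abs_of_nonneg (hχ x).1]
  exact mul_le_of_le_one_left (abs_nonneg _) (hχ x).2)

theorem glob (hb : Bornology.IsBounded Ω) (hL : LinT Ω Λ) (h0 : Λ (fun _ _ => 0) = 0)
    (h : ∀ x ∈ closure Ω, ∃ N, IsOpen N ∧ x ∈ N ∧ Mv Ω N Λ b) : ∃ C : ℝ, 0 ≤ C ∧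
    ∀ f, Test Ω f → Sol Ω Λ (fun x => f x - (∫ y, f y) * b x) (C * nm f) := by
  have main := hb.isCompact_closure.induction_on (p := fun K => ∃ (χ : P → ℝ) (C : ℝ),
    ContDiff ℝ ∞ χ ∧ (∀ x, 0 ≤ χ x ∧ χ x ≤ 1) ∧ (∀ x ∈ K, χ x = 1) ∧ 0 ≤ C ∧ ∀ f, Test Ω f →
      Sol Ω Λ (fun x => χ x * f x - (∫ y, χ y * f y) * b x) (C * nm f))
    ⟨fun _ => 0, 0, contDiff_const, fun _ => ⟨le_rfl, zero_le_one⟩, fun _ hx => hx.elim, le_rfl,
      fun f _ => ⟨fun _ _ => 0, fun _ => Test.zero Ω, fun x => by simp [dv, H64.pd_const], by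
        rw [h0]; simp⟩⟩
    (fun s t st ⟨χ, C, a1, a2, a3, a4⟩ => ⟨χ, C, a1, a2, fun x hx => a3 x (st hx), a4⟩)
    (fun s t ⟨χ, C, a1, a2, a3, a4, a5⟩ ⟨χ', C', b1, b2, b3, b4, b5⟩ => by
      have c1 : ContDiff ℝ ∞ fun x => 1 - χ x := contDiff_const.sub a1
      have c2 : ∀ x, 0 ≤ 1 - χ x ∧ 1 - χ x ≤ 1 := fun x => ⟨by linarith [a2 x], by linarith [a2 x]⟩
      refine ⟨fun x => χ x + χ' x * (1 - χ x), C + C', a1.add (b1.mul c1), fun x =>
        ⟨add_nonneg (a2 x).1 (mul_nonneg (b2 x).1 (c2 x).1), by nlinarith [a2 x, b2 x]⟩,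
        fun x hx => ?_, add_nonneg a4 b4, fun f hf => ?_⟩
      · rcases hx with hx | hx
        · simp only [a3 x hx]; ring
        · simp only [b3 x hx]; ring
      have t := hf.smul c1
      have i1 := (hf.smul a1).ct.integrable_of_hasCompactSupport (μ := volume) (hf.smul a1).2.1
      have i2 := (t.smul b1).ct.integrable_of_hasCompactSupport (μ := volume) (t.smul b1).2.1
      refine Sol.lin hL (a5 f hf) (b5 _ t) 1 (fun x => ?_) ?_
      · have : ∀ y, (χ y + χ' y * (1 - χ y)) * f y = χ y * f y + χ' y * ((1 - χ y) * f y) :=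
          fun y => by ring
        simp only [this]
        rw [integral_add i1 i2]
        ring
      · have := mul_le_mul_of_nonneg_left (nm_cut c2 hf.m2) b4
        rw [abs_one]
        linarith)
    (fun x hx => by
      obtain ⟨N, a1, a2, C, a3, a4⟩ := h x hx
      obtain ⟨r, r0, hr⟩ := Metric.nhds_basis_closedBall.mem_iff.1 (a1.mem_nhds a2)
      obtain ⟨χ, b1, b2, b3⟩ := exists_cut (isCompact_closedBall x r) a1 hr
      refine ⟨_, mem_nhdsWithin_of_mem_nhds (Metric.closedBall_mem_nhds x r0), χ, C, b1.1, b2,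
        fun y hy => b3.self_of_nhdsSet y hy, a3, fun f hf => ?_⟩
      have t := hf.smul b1.1
      obtain ⟨φ, c1, c2, c3⟩ := a4 _ ⟨t.1, t.2.1, subset_inter t.2.2 (b1.muls hf.1).2.2⟩
      exact ⟨φ, c1, c2, c3.trans (mul_le_mul_of_nonneg_left (nm_cut b2 hf.m2) a3)⟩)
  obtain ⟨χ, C, -, -, a3, a4, a5⟩ := main
  refine ⟨C, a4, fun f hf => ?_⟩
  have e : ∀ x, χ x * f x = f x := fun x => by
    by_cases hx : x ∈ Ω
    · rw [a3 x (subset_closure hx), one_mul]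
    · rw [hf.off hx, mul_zero]
  simpa only [e] using a5 f hf

end Glue

open Glue in
theorem rowGlue : OfGlue := by
  intro Ω Λ o hb hc hL hS h
  obtain ⟨b, h1⟩ := same o hb hc hL fun x hx =>
    let ⟨N, b, a1, a2, _, _, a3⟩ := h x hx; ⟨N, b, a1, a2, a3⟩
  obtain ⟨C, c0, hC⟩ := glob hb hL
    (hS _ ⟨fun _ => Test.zero Ω, fun x => by simp [H64.pd_const]⟩) h1
  choose! F F1 F2 F3 using hC
  have it : ∀ {f}, Test Ω f → Integrable f := fun hf => hf.ct.integrable_of_hasCompactSupport hf.2.1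
  have u : ∀ f φ, Test Ω f → (∀ j, Test Ω (φ j)) → (∀ x, dv φ x = f x - (∫ y, f y) * b x) →
      Λ (F f) = Λ φ := fun f φ hf hφ he => by
    have := hS (fun j p => F f j p + -1 * φ j p) ⟨fun j => (F1 f hf j).add ((hφ j).cmul _),
      fun x => (dv_lin (F1 f hf) hφ (-1) x).trans (by rw [F2 f hf, he]; ring)⟩
    rw [hL _ _ _ (F1 f hf) hφ] at this
    linarith
  have z : Λ (fun _ _ => 0) = 0 := hS _ ⟨fun _ => Test.zero Ω, fun x => by simp [H64.pd_const]⟩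
  obtain ⟨p, p1, -, p2⟩ := rowRiesz Ω (fun f => Λ (F f)) C c0
    (fun f g hf hg => by
      rw [u _ (fun j p => F f j p + 1 * F g j p) (hf.add hg)
        (fun j => (F1 f hf j).add ((F1 g hg j).cmul _)) fun x => by
          rw [dv_lin (F1 f hf) (F1 g hg), F2 f hf, F2 g hg, integral_add (it hf) (it hg)]; ring,
        hL _ _ _ (F1 f hf) (F1 g hg), one_mul])
    (fun c f hf => by
      rw [u _ (fun j p => (0 : ℝ) + c * F f j p) (hf.cmul c)
        (fun j => (Test.zero Ω).add ((F1 f hf j).cmul _)) fun x => by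
          rw [dv_lin (φ := fun _ _ => 0) (fun _ => Test.zero Ω) (F1 f hf), F2 f hf,
            integral_const_mul]
          simp only [dv, H64.pd_const, Finset.sum_const_zero]
          ring,
        hL (fun _ _ => 0) _ _ (fun _ => Test.zero Ω) (F1 f hf), z, zero_add]) F3
  refine ⟨p, p1, fun φ hφ => ?_⟩
  have t0 := (hφ 0).pd (ee 0)
  have t1 := (hφ 1).pd (ee 1)
  have e : dv φ = fun x => pd (ee 0) (φ 0) x + pd (ee 1) (φ 1) x := funext fun x =>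
    Fin.sum_univ_two _
  have k := fun j i => H64.integral_pd_eq_zero volume (ee i) (contDiff_infty.1 (hφ j).1 1)
    (hφ j).2.1
  have t : Test Ω (dv φ) := e ▸ t0.add t1
  rw [← p2 _ t, u _ φ t hφ fun x => ?_]
  have : ∫ y, dv φ y = 0 := by rw [e, integral_add (it t0) (it t1), k, k, add_zero]
  rw [this, zero_mul, sub_zero]

end Pool.Agent.MP_ed9623_an.E63
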