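import Pool.Agent.MP_ed9623_an.E63.Spec
import Pool.Agent.MP_ed9623_an.H77.AllW
import Pool.Agent.MP_ed9623_an.H73.Chart0

/-! The local bound for the divergence equation, up to the boundary. -/

open MeasureTheory Filter Topology Set
open scoped ContDiff

namespace Pool.Agent.MP_ed9623_an.E63

open H64 (pd pd_add pd_const_mul)
open H77

namespace Loc

theorem int_comp {T : P → P} (hT : MeasurePreserving T volume volume) {f : P → ℝ}
    (hf : Continuous f) : ∫ p, f (T p) = ∫ p, f p := by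
  rw [← integral_map hT.measurable.aemeasurable hf.aestronglyMeasurable, hT.map_eq]

theorem dv_bv {x τ : P} {γ : ℝ → ℝ} (hτ : τ.1 ^ 2 + τ.2 ^ 2 = 1) (hγ : Gam γ)
    {ζ : Fin 2 → P → ℝ} (hζ : ∀ j, ContDiff ℝ ∞ (ζ j)) (q : P) :
    dv (bv x τ γ ζ) q = ∑ j, dd γ j (ζ j) (Thi x τ γ q) := by
  have d : ∀ j, DifferentiableAt ℝ (fun q => ζ j (Thi x τ γ q)) q := fun j =>
    sm_diff ((hζ j).comp (sm_Thi hγ x τ)) q
  have e : ∀ k, pd (ee k) (bv x τ γ ζ k) q =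
      ∑ j, Rm τ j k * bv x τ γ (fun i => dd γ i (ζ j)) k q := fun k => by
    have : bv x τ γ ζ k = fun q => Rm τ 0 k * ζ 0 (Thi x τ γ q) + Rm τ 1 k * ζ 1 (Thi x τ γ q) :=
      funext fun q => Fin.sum_univ_two _
    rw [this, pd_add _ ((d 0).const_mul _) ((d 1).const_mul _), pd_const_mul _ _ (d 0),
      pd_const_mul _ _ (d 1), ((rowTh x τ γ hτ hγ).2.2.2.1 _ (hζ 0)).2,
      ((rowTh x τ γ hτ hγ).2.2.2.1 _ (hζ 1)).2, Fin.sum_univ_two]
  simp only [dv, e, bv, Fin.sum_univ_two, Rm, Matrix.cons_val_zero, Matrix.cons_val_one]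
  linear_combination (dd γ 0 (ζ 0) (Thi x τ γ q) + dd γ 1 (ζ 1) (Thi x τ γ q)) * hτ

end Loc

open Loc in
theorem rowLoc : OfLoc := by
  intro hD hB ρ R u g du hρ hd hP x hx
  have o : IsOpen {x | ρ x < 0} := isOpen_lt hρ.continuous continuous_const
  obtain ⟨τ, γ, σ, r, h⟩ : ∃ τ γ σ r, Ch {x | ρ x < 0} x τ γ σ r := by
    have hx' : ρ x ≤ 0 := closure_lt_subset_le hρ.continuous continuous_const hx
    rcases hx'.eq_or_lt with h | h
    · obtain ⟨τ, γ, r, h, -⟩ := rowChart0 ρ x hρ h (hd x h)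
      exact ⟨τ, γ, 0, r, h⟩
    · obtain ⟨r, h⟩ := exists_ch o h
      exact ⟨_, _, _, r, h⟩
  have r2 := half_pos h.r0
  obtain ⟨b, C, hb, b1, c0, hC⟩ := hD γ σ (r / 2) h.gam h.s0 r2
  obtain ⟨C', c1, hC'⟩ := hB _ x τ γ σ r R u g du h hP
  obtain ⟨m1, m2, -, -, t, -⟩ := rowTh x τ γ h.un h.gam
  have sq : Q (r / 2) ⊆ Q r := Q_mono (half_le_self h.r0.le)
  have s1 : Thi x τ γ ⁻¹' Qp σ (r / 2) ⊆ {x | ρ x < 0} := fun q hq => by
    have := (h.mem _ (sq hq.1)).2 hq.2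
    rwa [Th_Thi h.un] at this
  have s2 : Th x τ γ ⁻¹' ({x | ρ x < 0} ∩ Thi x τ γ ⁻¹' Q (r / 2)) ⊆ Qp σ (r / 2) :=
    fun p hp => by
      have a : p ∈ Q (r / 2) := by simpa only [mem_preimage, Thi_Th h.un] using hp.2
      exact ⟨a, (h.mem _ (sq a)).1 hp.1⟩
  refine ⟨Thi x τ γ ⁻¹' Q (r / 2), fun q => b (Thi x τ γ q), (h.nhds r2).1,
    mem_of_mem_nhds (h.nhds r2).2, (t _ _ hb).2.mono s1, (int_comp m2 hb.ct).trans b1,
    C' * (4 * C), by positivity, fun f hf => ?_⟩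
  obtain ⟨ζ, z1, z2, z3⟩ := hC _ ((t _ _ hf).1.mono s2)
  have n : nm (fun p => f (Th x τ γ p)) = nm f :=
    congrArg Real.sqrt (int_comp m1 (f := fun p => f p ^ 2) (hf.ct.pow 2))
  refine ⟨bv x τ γ ζ, fun j => (((wTrans x τ γ h.un h.gam).2.2.2.1 _ ζ z1).1 j).mono s1,
    fun q => ?_, (hC' ζ fun j => (z1 j).mono inter_subset_left).trans ?_⟩
  · rw [dv_bv h.un h.gam (fun j => (z1 j).1), z2, Th_Thi h.un, int_comp m1 hf.ct]
  · rw [mul_assoc, Fin.sum_univ_two]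
    rw [n] at z3
    refine mul_le_mul_of_nonneg_left ?_ c1
    linarith [(z3 0).1, (z3 0).2, (z3 1).1, (z3 1).2]

end Pool.Agent.MP_ed9623_an.E63
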