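import Pool.Agent.MP_ed9623_an.E63.Div
import Pool.Agent.MP_ed9623_an.E63.Bnd
import Pool.Agent.MP_ed9623_an.E63.Loc
import Pool.Agent.MP_ed9623_an.E63.Glue
import Pool.Agent.MP_ed9623_an.E63.Eq
import Pool.Agent.MP_ed9623_an.E63.Fin
import Pool.Agent.MP_ed9623_an.E13.El
import Pool.Agent.MP_ed9623_an.E16.Ab
import Pool.Agent.MP_ed9623_an.E16.RcB
import Pool.Agent.MP_ed9623_an.E16.Rg
import Pool.Agent.MP_ed9623_an.E16.Vo
import Pool.Agent.MP_ed9623_an.E16.Vt
import Pool.Agent.MP_ed9623_an.E16.Uv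
import Pool.Agent.MP_ed9623_an.E16.St
import Pool.Agent.MP_ed9623_an.E16.Per
import Pool.Agent.MP_ed9623_an.E16.Geo
import Pool.Agent.MP_ed9623_an.E16.Key

/-! Assembly: reduction to equilibria. -/

open MeasureTheory Filter Topology Set
open scoped ContDiff

namespace Pool.Agent.MP_ed9623_an.E63

open H77

theorem aSt : E16.StS :=
  E16.rowSt (E16.rowUv (E16.rowAb E13.elS E16.rowRcB)) (E16.rowVt E16.rowRg E16.rowVo)

theorem aKey : KeyS := fun ρ g R a w hρ hreg hb hc hP hT hJ hy => by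
  rcases E16.rowKey aSt E16.rowPer2 E16.rowGeo2 ρ hρ hreg hb hc g R a w hP hT hJ hy with
    (h | h) | h
  · exact .inl h
  · exact .inr (.inl h)
  · refine .inr (.inr fun t => ⟨?_, ?_⟩)
    · rw [show a = fun _ => a 0 from funext fun s => (h s).1, deriv_const]
    · rw [show w = fun _ => w 0 from funext fun s => (h s).2, deriv_const]

theorem aFin : FinS := rowFin (rowLoc rowDiv rowBnd) rowGlue rowEq aKey

end Pool.Agent.MP_ed9623_an.E63
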