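import Pool.Agent.MP_ed9623_an.E63.Spec
import Pool.Agent.MP_ed9623_an.E13.Agm
import Pool.Agent.MP_ed9623_an.H64.Divide

/-! The divergence equation in a chart. -/

open MeasureTheory Filter Topology Set
open scoped ContDiff

namespace Pool.Agent.MP_ed9623_an.E63

open H64 (pd HD pd_mul pd_add pd_sub integral_pd_eq_zero contDiff_param_integral)
open H77

namespace Dv

/-- Test functions on an interval. -/
def T1 (a b : ℝ) (α : ℝ → ℝ) : Prop :=
  ContDiff ℝ ∞ α ∧ HasCompactSupport α ∧ tsupport α ⊆ Ioo a b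

/-- Product of functions of the two variables. -/
def tn (α β : ℝ → ℝ) (p : P) : ℝ := α p.1 * β p.2

/-- Primitive in the second variable. -/
noncomputable def pr (c : ℝ) (g : P → ℝ) (p : P) : ℝ := ∫ σ in c..p.2, g (p.1, σ)

variable {a b c d : ℝ} {α β : ℝ → ℝ} {f g : P → ℝ}

theorem T1.deriv (h : T1 a b α) : T1 a b (deriv α) :=
  ⟨(contDiff_infty_iff_deriv.1 h.1).2, h.2.1.deriv, (tsupport_deriv_subset).trans h.2.2⟩

theorem T1.of {K : Set ℝ} (h : ContDiff ℝ ∞ α) (hK : IsCompact K) (hs : K ⊆ Ioo a b)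
    (h0 : ∀ y, y ∉ K → α y = 0) : T1 a b α :=
  ⟨h, HasCompactSupport.intro hK h0,
    (closure_minimal (Function.support_subset_iff'.2 h0) hK.isClosed).trans hs⟩

theorem exists_T1 (h : a < b) : ∃ α, T1 a b α ∧ ∫ y in a..b, α y = 1 := by
  let η : ContDiffBump ((a + b) / 2) := ⟨(b - a) / 8, (b - a) / 4, by linarith, by linarith⟩
  have s : tsupport (η.normed volume) ⊆ Ioo a b := by
    rw [η.tsupport_normed_eq, Real.closedBall_eq_Icc]
    exact Icc_subset_Ioo (by simp only [η]; linarith) (by simp only [η]; linarith)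
  refine ⟨η.normed volume, ⟨η.contDiff_normed, η.hasCompactSupport_normed, s⟩, ?_⟩
  rw [intervalIntegral.integral_eq_integral_of_support_subset
    ((subset_tsupport _).trans (s.trans Ioo_subset_Ioc_self)), η.integral_normed]

theorem test_tn (h : T1 a b α) (h' : T1 c d β) : Test (Bx a b c d) (tn α β) := by
  have ht : tsupport (tn α β) ⊆ tsupport α ×ˢ tsupport β :=
    closure_minimal (fun _ hp => ⟨subset_tsupport _ (left_ne_zero_of_mul hp),
      subset_tsupport _ (right_ne_zero_of_mul hp)⟩)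
      ((isClosed_tsupport _).prod (isClosed_tsupport _))
  exact ⟨(h.1.comp contDiff_fst).mul (h'.1.comp contDiff_snd),
    (IsCompact.prod h.2.1 h'.2.1).of_isClosed_subset (isClosed_tsupport _) ht,
    ht.trans (prod_mono h.2.2 h'.2.2)⟩

theorem pd0_tn (h : T1 a b α) (h' : T1 c d β) : pd (ee 0) (tn α β) = tn (deriv α) β :=
  funext fun p => by
    rw [← E13.der0 (test_tn h h').1 p.1 p.2]
    exact deriv_mul_const (h.1.differentiable (by simp) p.1) (β p.2)

theorem pd1_tn (h : T1 a b α) (h' : T1 c d β) : pd (ee 1) (tn α β) = tn α (deriv β) :=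
  funext fun p => by
    rw [← E13.der1 (test_tn h h').1 p.1 p.2]
    exact deriv_const_mul (α p.1) (h'.1.differentiable (by simp) p.2)

theorem nm_tn (α β : ℝ → ℝ) : nm (tn α β) ^ 2 = (∫ y, α y ^ 2) * ∫ s, β s ^ 2 := by
  rw [nm_sq, ← integral_prod_mul]
  simp only [tn, mul_pow]
  rfl

theorem exists_Icc {K : Set ℝ} (hK : IsCompact K) (h : K ⊆ Ioo c d) :
    ∃ c' d', c < c' ∧ d' < d ∧ K ⊆ Icc c' d' := by
  rcases K.eq_empty_or_nonempty with rfl | n
  · exact ⟨c + 1, d - 1, by linarith, by linarith, empty_subset _⟩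
  exact ⟨_, _, (h (hK.sInf_mem n)).1, (h (hK.sSup_mem n)).2,
    subset_Icc_csInf_csSup hK.bddBelow hK.bddAbove⟩

theorem prim_off {c' d' : ℝ} (hβ : Continuous β) (h1 : c < c') (h2 : d' < d)
    (h : ∀ σ, σ ∉ Icc c' d' → β σ = 0) (h0 : ∫ σ in c..d, β σ = 0) (s : ℝ) (hs : s ∉ Icc c' d') :
    ∫ σ in c..s, β σ = 0 := by
  rcases lt_or_ge s c' with k | k
  · rw [intervalIntegral.integral_congr (g := fun _ => 0) fun u hu => h u fun h' =>
      (hu.2.trans_lt (max_lt h1 k)).not_ge h'.1]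
    simp
  · have k' : d' < s := not_le.1 fun h' => hs ⟨k, h'⟩
    rw [← intervalIntegral.integral_add_adjacent_intervals (hβ.intervalIntegrable c d)
      (hβ.intervalIntegrable d s), h0, zero_add,
      intervalIntegral.integral_congr (g := fun _ => 0) fun u hu => h u fun h' =>
        ((lt_min h2 k').trans_le hu.1).not_ge h'.2]
    simp

theorem sm_pr (hg : ContDiff ℝ ∞ g) (c : ℝ) : ContDiff ℝ ∞ (pr c g) := by
  have e : pr c g = fun p : P => (p.2 - c) * ∫ t in (0 : ℝ)..1, g (p.1, (p.2 - c) * t + c) :=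
    funext fun p => by
      rw [intervalIntegral.mul_integral_comp_mul_add (f := fun σ => g (p.1, σ))]
      simp [pr]
  rw [e]
  refine contDiff_infty.2 fun n => (contDiff_snd.sub contDiff_const).mul
    (contDiff_param_integral (K := fun q : P × ℝ => g (q.1.1, (q.1.2 - c) * q.2 + c)) ?_)
  exact (contDiff_infty.1 hg n).comp (by fun_prop)

theorem pd_pr (hg : ContDiff ℝ ∞ g) (c : ℝ) : pd (ee 1) (pr c g) = g := funext fun p => by
  rw [← E13.der1 (sm_pr hg c) p.1 p.2]
  exact Continuous.deriv_integral (fun σ => g (p.1, σ)) (hg.continuous.comp (by fun_prop)) c p.2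

theorem test_pr (hg : Test (Bx a b c d) g) (h0 : ∀ y, pr c g (y, d) = 0) :
    Test (Bx a b c d) (pr c g) := by
  have k1 := hg.2.1.isCompact.image continuous_fst
  obtain ⟨c', d', h1, h2, h3⟩ := exists_Icc (c := c) (d := d)
    (hg.2.1.isCompact.image continuous_snd) (by rintro _ ⟨p, hp, rfl⟩; exact (hg.2.2 hp).2)
  have k := k1.prod (isCompact_Icc (a := c') (b := d'))
  have ht : tsupport (pr c g) ⊆ (Prod.fst '' tsupport g) ×ˢ Icc c' d' := by
    refine closure_minimal (fun p hp => ⟨by_contra fun h => hp ?_, by_contra fun h => hp ?_⟩)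
      k.isClosed
    · rw [pr, intervalIntegral.integral_congr (f := fun σ => g (p.1, σ)) (g := fun _ => 0)
        fun u _ => image_eq_zero_of_notMem_tsupport fun h' => h ⟨_, h', rfl⟩]
      simp
    · exact prim_off (β := fun σ => g (p.1, σ)) (hg.ct.comp (by fun_prop)) h1 h2
        (fun σ hσ => image_eq_zero_of_notMem_tsupport fun h' => hσ (h3 ⟨_, h', rfl⟩)) (h0 _) _ h
  refine ⟨sm_pr hg.1 c, k.of_isClosed_subset (isClosed_tsupport _) ht,
    ht.trans (prod_mono ?_ (Icc_subset_Ioo h1 h2))⟩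
  rintro _ ⟨p, hp, rfl⟩
  exact (hg.2.2 hp).1

theorem poin {r : ℝ} (hr : 0 < r) (hg : Test (Q r) g) (i : Fin 2) :
    nm g ≤ 2 * r * nm (pd (ee i) g) := by
  obtain ⟨l, sl, dl, bl⟩ : ∃ l : P → ℝ, ContDiff ℝ ∞ l ∧ (∀ p, pd (ee i) l p = 1) ∧
      ∀ p ∈ Q r, |l p| ≤ r := by
    fin_cases i
    · exact ⟨Prod.fst, contDiff_fst, fun p => by simp [pd, ee, fderiv_fst],
        fun p hp => (mem_Q.1 hp).1.le⟩
    · exact ⟨Prod.snd, contDiff_snd, fun p => by simp [pd, ee, fderiv_snd],
        fun p hp => (mem_Q.1 hp).2.le⟩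
  have t := hg.smul sl
  have a := WD.of_cd (contDiff_infty.1 hg.1 1) (Q r) (ee i) _ t
  have e : ∀ p, g p * pd (ee i) (fun x => l x * g x) p
      = g p ^ 2 + pd (ee i) g p * (l p * g p) := fun p => by
    rw [pd_mul _ (sm_diff sl p) (sm_diff hg.1 p), dl]
    ring
  simp only [e] at a
  rw [integral_add hg.m2.int_sq ((hg.pd _).m2.int_mul t.m2), ← nm_sq] at a
  have b := (abs_le.1 (abs_int_le (hg.pd (ee i)).m2 t.m2)).1
  have k : nm (fun x => l x * g x) ≤ r * nm g := by
    refine (nm_mono (hg.m2.cmul r) (Eventually.of_forall fun x => ?_)).trans_eq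
      (by rw [nm_cmul, abs_of_pos hr])
    by_cases hx : x ∈ Q r
    · rw [abs_mul, abs_mul, abs_of_pos hr]
      exact mul_le_mul_of_nonneg_right (bl x hx) (abs_nonneg _)
    · simp [hg.off hx]
  have k' := mul_le_mul_of_nonneg_left k (nm_nonneg (pd (ee i) g))
  rcases (nm_nonneg g).eq_or_lt with z | z
  · rw [← z]
    exact mul_nonneg (by positivity) (nm_nonneg _)
  · exact le_of_mul_le_mul_left (by nlinarith) z

theorem jens (hβ : Continuous β) (h : c < d) :
    (∫ σ in c..d, β σ) ^ 2 ≤ (d - c) * ∫ σ in c..d, β σ ^ 2 := by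
  obtain ⟨m, hm⟩ : ∃ m, m * (d - c) = ∫ σ in c..d, β σ :=
    ⟨_, div_mul_cancel₀ _ (sub_pos.2 h).ne'⟩
  have a : 0 ≤ ∫ σ in c..d, (β σ ^ 2 - 2 * m * β σ + m ^ 2) :=
    intervalIntegral.integral_nonneg h.le fun σ _ => by nlinarith [sq_nonneg (β σ - m)]
  have i1 : IntervalIntegrable (fun σ => β σ ^ 2) volume c d := (hβ.pow 2).intervalIntegrable c d
  have i2 := (hβ.intervalIntegrable (μ := volume) c d).const_mul (2 * m)
  rw [intervalIntegral.integral_add (i1.sub i2) intervalIntegrable_const,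
    intervalIntegral.integral_sub i1 i2, intervalIntegral.integral_const_mul,
    intervalIntegral.integral_const, smul_eq_mul, ← hm] at a
  rw [← hm]
  nlinarith [mul_nonneg (sub_pos.2 h).le a]

theorem mg_eq (hf : Test (Bx a b c d) f) (y : ℝ) : pr c f (y, d) = ∫ s, f (y, s) :=
  intervalIntegral.integral_eq_integral_of_support_subset fun _ hs =>
    Ioo_subset_Ioc_self (hf.2.2 (subset_tsupport _ hs)).2

theorem T1_mg (hf : Test (Bx a b c d) f) : T1 a b fun y => pr c f (y, d) :=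
  T1.of ((sm_pr hf.1 c).comp (contDiff_id.prodMk contDiff_const))
    (hf.2.1.isCompact.image continuous_fst) (by rintro _ ⟨p, hp, rfl⟩; exact (hf.2.2 hp).1)
    fun y hy => by
      rw [pr, intervalIntegral.integral_congr (g := fun _ => 0) fun u _ =>
        image_eq_zero_of_notMem_tsupport fun h' => hy ⟨_, h', rfl⟩]
      simp

theorem int_mg (hf : Test (Bx a b c d) f) : ∫ y in a..b, pr c f (y, d) = ∫ p, f p := by
  rw [intervalIntegral.integral_eq_integral_of_support_subset
    ((subset_tsupport _).trans ((T1_mg hf).2.2.trans Ioo_subset_Ioc_self))]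
  simp only [mg_eq hf]
  exact (integral_prod f (hf.ct.integrable_of_hasCompactSupport hf.2.1)).symm

theorem nm_mg (hf : Test (Bx a b c d) f) (h : c < d) (β : ℝ → ℝ) :
    nm (tn (fun y => pr c f (y, d)) β) ≤ √((d - c) * ∫ s, β s ^ 2) * nm f := by
  have p : 0 ≤ ∫ s, β s ^ 2 := integral_nonneg fun _ => sq_nonneg _
  have a : ∫ y, pr c f (y, d) ^ 2 ≤ (d - c) * nm f ^ 2 := by
    rw [nm_sq, show ∫ p, f p ^ 2 = _ from integral_prod _ hf.m2.int_prod, ← integral_const_mul]
    refine integral_mono_of_nonneg (Eventually.of_forall fun _ => sq_nonneg _)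
      (hf.m2.int_prod.integral_prod_left.const_mul _) (Eventually.of_forall fun y => ?_)
    refine (jens (β := fun s => f (y, s)) (hf.ct.comp (by fun_prop)) h).trans_eq ?_
    rw [intervalIntegral.integral_eq_integral_of_support_subset fun _ hs => Ioo_subset_Ioc_self
      (hf.2.2 (subset_tsupport _ fun k => hs ((pow_eq_zero_iff two_ne_zero).2 k))).2]
  refine (abs_le_of_sq_le_sq' ?_ (mul_nonneg (Real.sqrt_nonneg _) (nm_nonneg _))).2
  rw [nm_tn, mul_pow, Real.sq_sqrt (mul_nonneg (sub_pos.2 h).le p)]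
  nlinarith [mul_le_mul_of_nonneg_right a p]

end Dv

open Dv in
theorem rowDiv : OfDiv := by
  intro γ σ r hγ hσ hr
  rw [Qp_eq]
  have hc : max σ (-r) < r := max_lt (by linarith) (by linarith)
  have sQ : Bx (-r) r (max σ (-r)) r ⊆ Q r := Qp_eq σ r ▸ Qp_sub σ r
  generalize max σ (-r) = c at hc sQ ⊢
  obtain ⟨α, hα, iα⟩ := exists_T1 (show -r < r by linarith)
  obtain ⟨β, hβ, iβ⟩ := exists_T1 hc
  obtain ⟨χ, hχ, -, χ1⟩ := exists_cut (isCompact_closedBall (0 : P) r) isOpen_univ (subset_univ _)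
  obtain ⟨G, G0, hG⟩ := hγ.deriv.bd
  have n0 := nm_nonneg χ
  have n1 := fun δ => nm_nonneg (tn α δ)
  obtain ⟨k, hk⟩ : ∃ k : (ℝ → ℝ) → ℝ, ∀ δ, k δ = √((r - c) * ∫ s, δ s ^ 2) := ⟨_, fun _ => rfl⟩
  have k0 : ∀ δ, 0 ≤ k δ := fun δ => hk δ ▸ Real.sqrt_nonneg _
  obtain ⟨K, hK⟩ : ∃ K : (ℝ → ℝ) → ℝ, ∀ δ, K δ = 2 * r * (k δ + nm χ * nm (tn α δ)) :=
    ⟨_, fun _ => rfl⟩
  have K0 : ∀ δ, 0 ≤ K δ := fun δ => hK δ ▸
    mul_nonneg (by positivity) (add_nonneg (k0 δ) (mul_nonneg n0 (n1 δ)))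
  have a0 := K0 β
  have a1 := K0 (deriv β)
  have a2 := k0 β
  have a3 : 0 ≤ 1 + k β + G * K (deriv β) := by positivity
  refine ⟨tn α β, K β + K (deriv β) + (1 + 2 * r) * (1 + k β + G * K (deriv β)), test_tn hα hβ, ?_,
    by positivity, fun f hf => ?_⟩
  · rw [← int_mg (test_tn hα hβ), ← iα]
    refine intervalIntegral.integral_congr fun y _ => ?_
    simp only [pr, tn]
    rw [intervalIntegral.integral_const_mul, iβ, mul_one]
  have hm := T1_mg hf
  set m : ℝ → ℝ := fun y => pr c f (y, r) with em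
  set I := ∫ p, f p with eI
  have bI : |I| ≤ nm f * nm χ := by
    refine le_of_eq_of_le (congrArg _ (integral_congr_ae (Eventually.of_forall fun x => ?_)))
      (abs_int_le hf.m2 hχ.m2)
    by_cases hx : x ∈ Q r
    · simp only [χ1.self_of_nhdsSet x (Metric.ball_subset_closedBall (Q_eq_ball r ▸ hx)), mul_one]
    · simp only [(hf.mono sQ).off hx, zero_mul]
  have su : ContDiff ℝ ∞ fun y => m y - I * α y := hm.1.sub (contDiff_const.mul hα.1)
  set M : ℝ → ℝ := fun y => ∫ u in (-r)..y, (m u - I * α u) with eM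
  have dM : deriv M = fun y => m y - I * α y :=
    funext fun y => Continuous.deriv_integral _ su.continuous _ y
  have hM : T1 (-r) r M := by
    obtain ⟨c', d', h1, h2, h3⟩ := exists_Icc (hm.2.1.isCompact.union hα.2.1.isCompact)
      (union_subset hm.2.2 hα.2.2)
    refine T1.of (contDiff_infty_iff_deriv.2 ⟨fun y =>
      (su.continuous.integral_hasStrictDerivAt _ y).hasDerivAt.differentiableAt, by rwa [dM]⟩)
      isCompact_Icc (Icc_subset_Ioo h1 h2) (prim_off su.continuous h1 h2 (fun u hu => ?_) ?_)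
    · rw [image_eq_zero_of_notMem_tsupport fun h => hu (h3 (Or.inl h)),
        image_eq_zero_of_notMem_tsupport (f := α) fun h => hu (h3 (Or.inr h)), mul_zero, sub_zero]
    · rw [intervalIntegral.integral_sub (hm.1.continuous.intervalIntegrable _ _)
        ((hα.1.continuous.intervalIntegrable _ _).const_mul I),
        intervalIntegral.integral_const_mul, iα, mul_one, int_mg hf, sub_self]
  have bm : ∀ δ, nm (tn m δ) ≤ k δ * nm f := fun δ => hk δ ▸ nm_mg hf hc δ
  have bM : ∀ δ, T1 c r δ → nm (tn M δ) ≤ K δ * nm f := fun δ hδ => by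
    refine (poin hr ((test_tn hM hδ).mono sQ) 0).trans ?_
    have e : tn (deriv M) δ = fun p => tn m δ p - I * tn α δ p := funext fun p => by
      simp only [tn, dM]
      ring
    have b := nm_sub_le (test_tn hm hδ).m2 ((test_tn hα hδ).m2.cmul I)
    rw [nm_cmul] at b
    rw [pd0_tn hM hδ, e, hK, mul_assoc (2 * r)]
    refine mul_le_mul_of_nonneg_left ?_ (by positivity)
    nlinarith [bm δ, mul_le_mul_of_nonneg_right bI (n1 δ)]
  have t0 := test_tn hM hβ
  have tg := hf.sub (test_tn hm hβ)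
  have tp := test_pr tg fun y => by
    have c1 : Continuous fun s => f (y, s) := hf.ct.comp (by fun_prop)
    simp only [pr, tn]
    rw [intervalIntegral.integral_sub (c1.intervalIntegrable _ _)
      ((hβ.1.continuous.intervalIntegrable _ _).const_mul _), intervalIntegral.integral_const_mul,
      iβ, mul_one]
    exact sub_self _
  have t2 := t0.smul hγ.deriv.smP
  have t1 := tp.add t2
  have d1 : pd (ee 1) (fun x => pr c (fun x => f x - tn m β x) x + deriv γ x.1 * tn M β x)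
      = fun x => f x - tn m β x + deriv γ x.1 * tn M (deriv β) x := funext fun x => by
    rw [pd_add _ (sm_diff tp.1 x) (sm_diff t2.1 x), pd_pr tg.1,
      pd_mul _ (sm_diff hγ.deriv.smP x) (sm_diff t0.1 x), hγ.deriv.pd1, pd1_tn hM hβ, zero_mul,
      zero_add]
  have nf := nm_nonneg f
  have b1 : nm (fun x => f x - tn m β x + deriv γ x.1 * tn M (deriv β) x)
      ≤ (1 + k β + G * K (deriv β)) * nm f := by
    have m2 := (test_tn hM hβ.deriv).m2
    have u1 := nm_add_le tg.m2 (m2.gmul hγ.deriv)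
    have u2 := nm_sub_le hf.m2 (test_tn hm hβ).m2
    have u3 := nm_bmul (m := fun p : P => deriv γ p.1) m2 G0 (Eventually.of_forall fun p => hG p.1)
    have u4 := mul_le_mul_of_nonneg_left (bM _ hβ.deriv) G0
    nlinarith [bm β]
  have b2 := (poin hr (t1.mono sQ) 1).trans
    (mul_le_mul_of_nonneg_left (d1 ▸ b1) (show 0 ≤ 2 * r by positivity))
  have v0 := mul_nonneg a0 nf
  have v1 := mul_nonneg a1 nf
  have v2 := mul_nonneg a3 nf
  have v3 := mul_nonneg hr.le v2
  refine ⟨![tn M β, fun x => pr c (fun x => f x - tn m β x) x + deriv γ x.1 * tn M β x],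
    Fin.forall_fin_two.2 ⟨t0, t1⟩, fun p => ?_, Fin.forall_fin_two.2 ⟨⟨?_, ?_⟩, ?_, ?_⟩⟩
  · simp only [Fin.sum_univ_two, Matrix.cons_val_zero, Matrix.cons_val_one, dd0, dd1, d1,
      pd0_tn hM hβ, pd1_tn hM hβ]
    simp only [tn, dM]
    ring
  · change nm (tn M β) ≤ _
    nlinarith [bM β hβ]
  · change nm (pd (ee 1) (tn M β)) ≤ _
    rw [pd1_tn hM hβ]
    nlinarith [bM _ hβ.deriv]
  · exact b2.trans (by nlinarith)
  · exact (d1 ▸ b1).trans (by nlinarith)

end Pool.Agent.MP_ed9623_an.E63
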